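import Pool.Agent.H48.FB.R02

/-!
# Convex bodies, not balls, that float in every orientation at two densities

Negative answer to Q1: there are centrally symmetric convex bodies of revolution in `R^3`, arbitrarily
close to the unit ball but not balls, which float in equilibrium in every orientation at the two
distinct densities `d` and `1 - d` for some `d < 1/2`.

Idea of the proof. Let the meridian curve of the body be near the unit circle. The water line of
orientation `t` joins the points of the meridian with parameters `t - al` and `t + al`. Floating in
every orientation means that the cap volume is constant and the first moment of the cap is a constant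
multiple of the unit normal. At the ball the linearised equations are diagonal in the Legendre
functions, with eigenvalue proportional to `P_{n,2}(cos al)` for `P_n`; at `cos al = 1/sqrt 7` the
eigenvalue of `P_4` vanishes and a branch of non-spherical solutions bifurcates (the formal expansion
of F. Wegner). Convergence is a small divisor problem of two kinds (the eigenvalues, and `sin (2 k al)`
from the reparametrisation of the meridian). It is solved by a Newton (KAM) iteration in spaces of
analytic functions on strips in the upper half plane, starting from an approximate solution of high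
order, for angles `al` close to `arccos (1/sqrt 7)` chosen by a diophantine argument; at
`cos al = 1/sqrt 7` all other eigenvalues are nonzero by a 3-adic argument.
-/

open MeasureTheory

namespace Pool.Agent.Results.MP_fa62fa_gt.FloatsAtTwoDensities

/-- Euclidean 3-space. -/
abbrev E3 : Type := EuclideanSpace ℝ (Fin 3)

/-- Centroid of a set. -/
noncomputable def centroid (S : Set E3) : E3 := (volume S).toReal⁻¹ • ∫ x in S, x

/-- The part of `K` below the level `t` in the direction `u`. -/
def submerged (K : Set E3) (u : E3) (t : ℝ) : Set E3 := K ∩ {x | inner ℝ x u ≤ t}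

/-- `K` floats in equilibrium in the orientation `u` at density `d`: there is a level `t` with
`vol (K ∩ {x . u ≤ t}) = d vol K`, and for every such level the vector from the centre of buoyancy
to the centroid of `K` is parallel to `u`. -/
def FloatsAt (K : Set E3) (d : ℝ) (u : E3) : Prop :=
  (∃ t : ℝ, (volume (submerged K u t)).toReal = d * (volume K).toReal) ∧
  ∀ t : ℝ, (volume (submerged K u t)).toReal = d * (volume K).toReal →
    ∃ a : ℝ, centroid K - centroid (submerged K u t) = a • u

/-- `K` floats in every orientation at density `d`. -/
def FloatsEvery (K : Set E3) (d : ℝ) : Prop := ∀ u : E3, ‖u‖ = 1 → FloatsAt K d u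

/-- For every `ε ∈ (0, 1]` there is a convex body `K` in `R^3`, centrally symmetric, of revolution about
the third axis, between the balls of radii `1 - ε` and `1 + ε` about `0`, which is not a ball and floats
in every orientation at two distinct densities `d1, d2 ∈ (0, 1)` (with `d1 < 1/2`, `d2 = 1 - d1`). -/
theorem result (ε : ℝ) (hε : 0 < ε) (hε1 : ε ≤ 1) :
    ∃ K : Set E3, IsCompact K ∧ Convex ℝ K ∧ (interior K).Nonempty ∧
      Metric.closedBall (0 : E3) (1 - ε) ⊆ K ∧ K ⊆ Metric.closedBall (0 : E3) (1 + ε) ∧
      (∀ p ∈ K, -p ∈ K) ∧
      (∀ p q : E3, p 2 = q 2 → (p 0) ^ 2 + (p 1) ^ 2 = (q 0) ^ 2 + (q 1) ^ 2 → (p ∈ K ↔ q ∈ K)) ∧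
      (¬ ∃ (p : E3) (r : ℝ), K = Metric.closedBall p r) ∧
      ∃ d1 d2 : ℝ, 0 < d1 ∧ d1 < 1 / 2 ∧ d2 = 1 - d1 ∧ d1 ≠ d2 ∧ d2 < 1 ∧
        FloatsEvery K d1 ∧ FloatsEvery K d2 := by
  obtain ⟨K, h1, h2, h3, h4, h5, h6, h7, h8, d, h9, h10, h11, h12⟩ := FB.main2 hε hε1
  exact ⟨K, h1, h2, h3, h4, h5, h6, h7, h8, d, 1 - d, h9, h10, rfl, by linarith, by linarith, h11, h12⟩

end Pool.Agent.Results.MP_fa62fa_gt.FloatsAtTwoDensities
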